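import Pool.Agent.H421Z.Gon.Main

set_option autoImplicit false

namespace Pool.Agent.Results.MP_28c31d_co.AOddSubdivision

open Pool.Agent.H421Z.Gon

/-- There is a finite connected loopless multigraph whose gonality drops when every edge is replaced
by a path of three edges. -/
theorem result : ∃ G : MultiGraph (Fin 11) (Fin 23), G.Connected ∧ (G.subdiv 3).gon < G.gon :=
  ⟨GG, GG_conn, lt_of_le_of_lt up (lt_of_lt_of_le (by norm_num) lower)⟩

end Pool.Agent.Results.MP_28c31d_co.AOddSubdivision
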